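import Pool.Agent.H146.BV.Final

/-!
# MP_701a37_co, Q1: beta invariant versus normalised volume of the base polytope

The definitions (rank, beta invariant, connectivity, base polytope, normalised volume, the minimal
matroid `T_{k,n}` and `U_{2,4}`) are in `Pool/Agent/H146/BV/Defs.lean`.

Outline of the proof. Fix a base `B`. The base polytope contains the pyramids with apex `e_B` over
its faces `P(M|F) x P(M/F)`, which overlap in sets of measure zero; this gives
`Vol(M) ≥ ∑_F (r(F) - |F ∩ B|) C(n-2, |F|-1) Vol(M|F) Vol(M/F)`, the sum over all nonempty proper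
`F`. By induction this is compared with the two inequalities
`β(M) ≤ ∑_{e ∉ B} β(M/e) + ∑_F (r(F) - |F ∩ B|) β(M|F) β(M/F)` and its dual (sums over
`2 ≤ |F| ≤ n-2`), which are proved by deletion and contraction, and with a comparison of binomial
coefficients. In the equality case all sets `F` of nonzero weight have one of two types; one of them
gives `T_{k,n}`, and the other leads to `k (n - k) = n`, so `k = 2` and `n = 4`.
-/

namespace Pool.Agent.Results.MP_701a37_co.BetaVolume

open Pool.Agent.H146.BV.Defs

/-- For every connected matroid `M` of rank `k` on `[n]`, `n ≥ 2`, we have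
`β(M) * C(n-2, k-1) ≤ Vol(M)`, and equality holds if and only if `M` is isomorphic to `T_{k,n}` or
to `U_{2,4}`. -/
theorem result (n : ℕ) (hn : 2 ≤ n) (k : ℕ) (M : Matroid (Fin n)) (_hE : M.E = Set.univ)
    (hk : M.eRank = k) (hc : IsConnected M) :
    (betaInv M : ℝ) * ((n - 2).choose (k - 1) : ℝ) ≤ normVol M ∧
      ((betaInv M : ℝ) * ((n - 2).choose (k - 1) : ℝ) = normVol M ↔
        IsIsoT k M ∨ IsIsoU24 M) :=
  Pool.Agent.H146.BV.main_final n hn k M hk hc

end Pool.Agent.Results.MP_701a37_co.BetaVolume
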